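import Pool.Agent.H27.L1.H34.GM.Targets
import Pool.Agent.H27.L1.H34.GM.Targets2

set_option autoImplicit false

namespace Pool.Agent.H27.L1.H34.GM

open MeasureTheory

theorem PLR_scale (F : ℝ → ENNReal) (hF : Measurable F) (a : ℝ) (ha : 0 < a) :
    ∫⁻ r in Set.Ioi (0 : ℝ), F (r * a⁻¹) * ENNReal.ofReal r⁻¹ =
      ∫⁻ t in Set.Ioi (0 : ℝ), F t * ENNReal.ofReal t⁻¹ := by
  have h3 : ENNReal.ofReal a⁻¹ * ENNReal.ofReal a = 1 := by
    rw [← ENNReal.ofReal_mul (by positivity), inv_mul_cancel₀ ha.ne', ENNReal.ofReal_one]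
  have hG : Measurable ((Set.Ioi (0 : ℝ)).indicator (fun t => F t * ENNReal.ofReal t⁻¹)) := by
    refine Measurable.indicator ?_ measurableSet_Ioi
    exact hF.mul (measurable_inv.ennreal_ofReal)
  have h1 : ∫⁻ r in Set.Ioi (0 : ℝ), F (r * a⁻¹) * ENNReal.ofReal r⁻¹ =
      ∫⁻ r, ENNReal.ofReal a⁻¹ *
        ((Set.Ioi (0 : ℝ)).indicator (fun t => F t * ENNReal.ofReal t⁻¹)) (a⁻¹ * r) := by
    rw [← lintegral_indicator measurableSet_Ioi]
    refine lintegral_congr fun r => ?_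
    by_cases hr : 0 < r
    · have h2 : (a⁻¹ * r) ∈ Set.Ioi (0 : ℝ) := by
        simp only [Set.mem_Ioi]; positivity
      rw [Set.indicator_of_mem (show r ∈ Set.Ioi (0 : ℝ) from hr), Set.indicator_of_mem h2,
        mul_inv, inv_inv, ENNReal.ofReal_mul ha.le, mul_comm a⁻¹ r]
      calc F (r * a⁻¹) * ENNReal.ofReal r⁻¹
          = (ENNReal.ofReal a⁻¹ * ENNReal.ofReal a) * (F (r * a⁻¹) * ENNReal.ofReal r⁻¹) := by
            rw [h3, one_mul]
        _ = ENNReal.ofReal a⁻¹ * (F (r * a⁻¹) * (ENNReal.ofReal a * ENNReal.ofReal r⁻¹)) := by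
            ring
    · have h2 : (a⁻¹ * r) ∉ Set.Ioi (0 : ℝ) := by
        simp only [Set.mem_Ioi, not_lt] at *
        exact mul_nonpos_of_nonneg_of_nonpos (by positivity) hr
      rw [Set.indicator_of_notMem (show r ∉ Set.Ioi (0 : ℝ) from hr),
        Set.indicator_of_notMem h2, mul_zero]
  have h4 : ∫⁻ r, ((Set.Ioi (0 : ℝ)).indicator (fun t => F t * ENNReal.ofReal t⁻¹)) (a⁻¹ * r) =
      ENNReal.ofReal a * ∫⁻ t, ((Set.Ioi (0 : ℝ)).indicator
        (fun t => F t * ENNReal.ofReal t⁻¹)) t := by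
    rw [← lintegral_map hG (measurable_const_mul a⁻¹),
      Real.map_volume_mul_left (inv_ne_zero ha.ne'), lintegral_smul_measure, inv_inv,
      abs_of_pos ha, smul_eq_mul]
  have h5 : Measurable (fun r : ℝ =>
      ((Set.Ioi (0 : ℝ)).indicator (fun t => F t * ENNReal.ofReal t⁻¹)) (a⁻¹ * r)) :=
    hG.comp (measurable_const_mul a⁻¹)
  rw [h1, lintegral_const_mul _ h5, h4, ← mul_assoc, h3,
    one_mul, lintegral_indicator measurableSet_Ioi]

theorem PLR_one (a : ℝ) (ha : 0 < a) :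
    ∫⁻ t in Set.Ioi (0 : ℝ), (Set.Ioc (a / Real.exp 1) a).indicator
      (fun t => ENNReal.ofReal t⁻¹) t = 1 := by
  have he : 0 < Real.exp 1 := Real.exp_pos 1
  have he1 : 1 < Real.exp 1 := Real.one_lt_exp_iff.mpr one_pos
  have h0 : 0 < a / Real.exp 1 := by positivity
  have hle : a / Real.exp 1 ≤ a := div_le_self ha.le he1.le
  rw [setLIntegral_indicator measurableSet_Ioc]
  have h1 : Set.Ioc (a / Real.exp 1) a ∩ Set.Ioi (0 : ℝ) = Set.Ioc (a / Real.exp 1) a := by
    refine Set.inter_eq_left.mpr fun t ht => ?_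
    exact lt_trans h0 ht.1
  rw [h1, ← ofReal_integral_eq_lintegral_ofReal]
  · rw [← intervalIntegral.integral_of_le hle, integral_inv_of_pos h0 ha]
    have : a / (a / Real.exp 1) = Real.exp 1 := by field_simp
    rw [this, Real.log_exp, ENNReal.ofReal_one]
  · have h2 : IntervalIntegrable (fun t : ℝ => t⁻¹) volume (a / Real.exp 1) a := by
      apply intervalIntegral.intervalIntegrable_inv
      · intro t ht
        rw [Set.uIcc_of_le hle] at ht
        exact (lt_of_lt_of_le h0 ht.1).ne'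
      · exact continuousOn_id
    exact (intervalIntegrable_iff_integrableOn_Ioc_of_le hle).mp h2
  · refine (ae_restrict_iff' measurableSet_Ioc).mpr (Filter.Eventually.of_forall fun t ht => ?_)
    exact inv_nonneg.mpr (lt_trans h0 ht.1).le

theorem PLR_aN (m : ℕ) (hm1 : 1 ≤ m) (t : ℝ) (ht : 0 < t) (z : V m) :
    aN (mt (t • z)) = t * aN (mt z) := by
  have h1 : (mt (t • z)).det = t ^ m * (mt z).det := by
    have : mt (t • z) = t • mt z := rfl
    rw [this, Matrix.det_smul, Fintype.card_fin]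
  have hm0 : (m : ℝ) ≠ 0 := by
    have : (0 : ℝ) < m := by exact_mod_cast hm1
    exact this.ne'
  unfold aN
  rw [h1, abs_mul, Real.mul_rpow (abs_nonneg _) (abs_nonneg _), abs_of_pos (pow_pos ht m),
    ← Real.rpow_natCast t m, ← Real.rpow_mul ht.le, mul_one_div_cancel hm0, Real.rpow_one]

theorem pf_PLR : T_MSR → T_HAR → T_PLR := by
  intro HM HH m hm1 f hf
  obtain ⟨-, hdetm, ham, -, hsig, hSh, -, -⟩ := HM.1 m
  obtain ⟨hinv, -, hnull, -⟩ := HH m hm1
  have hsm : Measurable (fun p : ℝ × V m => p.1 • p.2) := by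
    refine measurable_pi_iff.mpr fun i => measurable_pi_iff.mpr fun j => ?_
    have : (fun p : ℝ × V m => (p.1 • p.2) i j) = fun p => p.1 * p.2 i j := rfl
    rw [this]
    exact measurable_fst.mul
      ((measurable_pi_apply j).comp ((measurable_pi_apply i).comp measurable_snd))
  have hrm : Measurable (fun r : ℝ => ENNReal.ofReal r⁻¹) := measurable_inv.ennreal_ofReal
  -- first step
  have hA : Measurable (fun p : ℝ × V m => f ((p.1 * (aN (mt p.2))⁻¹) • p.2)) := by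
    refine hf.comp ?_
    have : (fun p : ℝ × V m => (p.1 * (aN (mt p.2))⁻¹) • p.2) =
        (fun p : ℝ × V m => p.1 • p.2) ∘ (fun p : ℝ × V m => (p.1 * (aN (mt p.2))⁻¹, p.2)) := rfl
    rw [this]
    refine hsm.comp (Measurable.prodMk ?_ measurable_snd)
    exact measurable_fst.mul (ham.comp measurable_snd).inv
  have hB : Measurable (fun p : ℝ × V m => f (p.1 • p.2)) := hf.comp hsm
  have e1 : ∫⁻ r in Set.Ioi (0 : ℝ), (∫⁻ z in Shell m,
      f ((r * (aN (mt z))⁻¹) • z) ∂(hm m)) * ENNReal.ofReal r⁻¹ =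
      ∫⁻ r in Set.Ioi (0 : ℝ), ∫⁻ z in Shell m,
        f ((r * (aN (mt z))⁻¹) • z) * ENNReal.ofReal r⁻¹ ∂(hm m) := by
    refine lintegral_congr fun r => ?_
    rw [lintegral_mul_const]
    exact hA.comp (measurable_const.prodMk measurable_id)
  have e2 : ∫⁻ r in Set.Ioi (0 : ℝ), ∫⁻ z in Shell m,
        f ((r * (aN (mt z))⁻¹) • z) * ENNReal.ofReal r⁻¹ ∂(hm m) =
      ∫⁻ z in Shell m, (∫⁻ r in Set.Ioi (0 : ℝ),
        f ((r * (aN (mt z))⁻¹) • z) * ENNReal.ofReal r⁻¹) ∂(hm m) := by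
    refine lintegral_lintegral_swap ?_
    exact (hA.mul (hrm.comp measurable_fst)).aemeasurable
  have e3 : ∫⁻ z in Shell m, (∫⁻ r in Set.Ioi (0 : ℝ),
        f ((r * (aN (mt z))⁻¹) • z) * ENNReal.ofReal r⁻¹) ∂(hm m) =
      ∫⁻ z in Shell m, (∫⁻ t in Set.Ioi (0 : ℝ), f (t • z) * ENNReal.ofReal t⁻¹) ∂(hm m) := by
    refine setLIntegral_congr_fun hSh fun z hz => ?_
    have hz1 : 0 < aN (mt z) := lt_of_lt_of_le one_pos hz.1
    exact PLR_scale (fun t => f (t • z)) (hB.comp (measurable_id.prodMk measurable_const)) _ hz1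
  have e4 : ∫⁻ z in Shell m, (∫⁻ t in Set.Ioi (0 : ℝ), f (t • z) * ENNReal.ofReal t⁻¹) ∂(hm m) =
      ∫⁻ t in Set.Ioi (0 : ℝ), ∫⁻ z in Shell m, f (t • z) * ENNReal.ofReal t⁻¹ ∂(hm m) := by
    refine (lintegral_lintegral_swap ?_).symm
    exact (hB.mul (hrm.comp measurable_fst)).aemeasurable
  have hset : ∀ t : ℝ, MeasurableSet {w : V m | t⁻¹ • w ∈ Shell m} := by
    intro t
    exact (hsm.comp (measurable_const.prodMk measurable_id)) hSh
  have e5 : ∫⁻ t in Set.Ioi (0 : ℝ), ∫⁻ z in Shell m, f (t • z) * ENNReal.ofReal t⁻¹ ∂(hm m) =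
      ∫⁻ t in Set.Ioi (0 : ℝ), ∫⁻ w, {w : V m | t⁻¹ • w ∈ Shell m}.indicator
        (fun w => f w * ENNReal.ofReal t⁻¹) w ∂(hm m) := by
    refine setLIntegral_congr_fun measurableSet_Ioi fun t ht => ?_
    have ht0 : (0 : ℝ) < t := ht
    have hm2 : Measurable ({w : V m | t⁻¹ • w ∈ Shell m}.indicator
        (fun w => f w * ENNReal.ofReal t⁻¹)) :=
      (hf.mul_const _).indicator (hset t)
    have hdet : (t • (1 : Mat m)).det ≠ 0 := by
      rw [Matrix.det_smul, Matrix.det_one, mul_one]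
      exact (pow_pos ht0 _).ne'
    have h1 := (hinv (t • (1 : Mat m)) hdet _ hm2).1
    have h2 : ∀ z : V m, ((fun i j => (t • (1 : Mat m) * mt z) i j) : V m) = t • z := by
      intro z
      have : t • (1 : Mat m) * mt z = t • mt z := by rw [Matrix.smul_mul, Matrix.one_mul]
      rw [this]
      rfl
    simp only [h2] at h1
    rw [← h1, ← lintegral_indicator hSh]
    refine lintegral_congr fun z => ?_
    have h3 : t⁻¹ • t • z = z := by
      rw [smul_smul, inv_mul_cancel₀ ht0.ne', one_smul]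
    by_cases hz : z ∈ Shell m
    · rw [Set.indicator_of_mem hz, Set.indicator_of_mem
        (show t • z ∈ {w : V m | t⁻¹ • w ∈ Shell m} by
          simp only [Set.mem_ofPred_eq]; rw [h3]; exact hz)]
    · rw [Set.indicator_of_notMem hz, Set.indicator_of_notMem
        (show t • z ∉ {w : V m | t⁻¹ • w ∈ Shell m} by
          simp only [Set.mem_ofPred_eq]; rw [h3]; exact hz)]
  have hC : Measurable (fun p : ℝ × V m => {w : V m | p.1⁻¹ • w ∈ Shell m}.indicator
        (fun w => f w * ENNReal.ofReal p.1⁻¹) p.2) := by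
    have hS2 : MeasurableSet {p : ℝ × V m | p.1⁻¹ • p.2 ∈ Shell m} :=
      (hsm.comp (measurable_fst.inv.prodMk measurable_snd)) hSh
    have : (fun p : ℝ × V m => {w : V m | p.1⁻¹ • w ∈ Shell m}.indicator
        (fun w => f w * ENNReal.ofReal p.1⁻¹) p.2) =
        {p : ℝ × V m | p.1⁻¹ • p.2 ∈ Shell m}.indicator
          (fun p => f p.2 * ENNReal.ofReal p.1⁻¹) := by
      funext p
      by_cases hp : p.1⁻¹ • p.2 ∈ Shell m
      · rw [Set.indicator_of_mem (show p.2 ∈ {w : V m | p.1⁻¹ • w ∈ Shell m} from hp),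
          Set.indicator_of_mem (show p ∈ {p : ℝ × V m | p.1⁻¹ • p.2 ∈ Shell m} from hp)]
      · rw [Set.indicator_of_notMem (show p.2 ∉ {w : V m | p.1⁻¹ • w ∈ Shell m} from hp),
          Set.indicator_of_notMem (show p ∉ {p : ℝ × V m | p.1⁻¹ • p.2 ∈ Shell m} from hp)]
    rw [this]
    exact ((hf.comp measurable_snd).mul (hrm.comp measurable_fst)).indicator hS2
  have e6 : ∫⁻ t in Set.Ioi (0 : ℝ), ∫⁻ w, {w : V m | t⁻¹ • w ∈ Shell m}.indicator
        (fun w => f w * ENNReal.ofReal t⁻¹) w ∂(hm m) =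
      ∫⁻ w, (∫⁻ t in Set.Ioi (0 : ℝ), {w : V m | t⁻¹ • w ∈ Shell m}.indicator
        (fun w => f w * ENNReal.ofReal t⁻¹) w) ∂(hm m) := by
    refine lintegral_lintegral_swap ?_
    exact hC.aemeasurable
  have e7 : ∫⁻ w, (∫⁻ t in Set.Ioi (0 : ℝ), {w : V m | t⁻¹ • w ∈ Shell m}.indicator
        (fun w => f w * ENNReal.ofReal t⁻¹) w) ∂(hm m) = ∫⁻ w, f w ∂(hm m) := by
    have hae : ∀ᵐ w ∂(hm m), (mt w).det ≠ 0 := by
      rw [ae_iff]
      simpa using hnull
    refine lintegral_congr_ae ?_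
    filter_upwards [hae] with w hw
    have ha0 : 0 < aN (mt w) := by
      unfold aN
      exact Real.rpow_pos_of_pos (abs_pos.mpr hw) _
    have h1 : ∫⁻ t in Set.Ioi (0 : ℝ), {w : V m | t⁻¹ • w ∈ Shell m}.indicator
        (fun w => f w * ENNReal.ofReal t⁻¹) w =
        ∫⁻ t in Set.Ioi (0 : ℝ), f w * (Set.Ioc (aN (mt w) / Real.exp 1) (aN (mt w))).indicator
          (fun t => ENNReal.ofReal t⁻¹) t := by
      refine setLIntegral_congr_fun measurableSet_Ioi fun t ht => ?_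
      have ht0 : (0 : ℝ) < t := ht
      have he : 0 < Real.exp 1 := Real.exp_pos 1
      have hiff : t⁻¹ • w ∈ Shell m ↔
          t ∈ Set.Ioc (aN (mt w) / Real.exp 1) (aN (mt w)) := by
        unfold Shell
        rw [Set.mem_ofPred_eq, PLR_aN m hm1 t⁻¹ (inv_pos.mpr ht0) w, Set.mem_Ioc,
          inv_mul_eq_div, one_le_div ht0, div_lt_iff₀ ht0, div_lt_iff₀ he, mul_comm t]
        exact and_comm
      by_cases hp : t⁻¹ • w ∈ Shell m
      · rw [Set.indicator_of_mem (show w ∈ {w : V m | t⁻¹ • w ∈ Shell m} from hp),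
          Set.indicator_of_mem (hiff.mp hp)]
      · rw [Set.indicator_of_notMem (show w ∉ {w : V m | t⁻¹ • w ∈ Shell m} from hp),
          Set.indicator_of_notMem (fun h => hp (hiff.mpr h)), mul_zero]
    rw [h1, lintegral_const_mul, PLR_one _ ha0, mul_one]
    exact hrm.indicator measurableSet_Ioc
  rw [e1, e2, e3, e4, e5, e6, e7]

end Pool.Agent.H27.L1.H34.GM
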